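import Mathlib
import Pool.Agent.H538R2.RDFinal

/-!
# A SETH-strength lower bound for resolution of almost quadratic depth

For every `ε` in `(0, 2)` and every `c` there is a constant `m` such that for all large `n` there is
an unsatisfiable CNF formula `F` over `n` variables such that every resolution refutation of `F` whose
depth is at most `n ^ 2 / (m * log ^ 2 n)` has more than `(2 - ε) ^ n * |F| ^ c` clauses.
Regular resolution refutations have depth at most `n`; here variables may be queried again
`n / (m * log ^ 2 n)` times on average on every path.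
-/

set_option autoImplicit false

namespace Pool.Agent.Results.MP_c62aed_lc.DepthResolution

open Pool.Agent.H538R2.SB

theorem result (ε : ℝ) (hε0 : 0 < ε) (hε2 : ε < 2) (c : ℕ) :
    ∃ m n₀ : ℕ, 0 < m ∧ ∀ n : ℕ, n₀ ≤ n → ∃ F : Finset (Clause n),
      (∀ x : Asg n, ∃ C ∈ F, FalseAt C x) ∧
      ∀ (lines : Finset (Clause n)) (rk : Clause n → ℕ), Resolution F lines rk →
        m * rk ∅ * (Nat.log 2 n + 1) ^ 2 ≤ n ^ 2 →
        (2 - ε) ^ n * (cnfSize F : ℝ) ^ c < lines.card :=
  main_RD ε hε0 hε2 c

end Pool.Agent.Results.MP_c62aed_lc.DepthResolution
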