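import Mathlib
import Pool.Agent.H520R2.NMDefs
import Pool.Agent.H559R4.SatDefs
import Pool.Agent.H559R4.Main2

/-!
# The strong exponential time hypothesis for circuits with few non-monotone gates

Consider circuits of AND and OR gates of fan-in two and of arbitrary further gates, the `i`-th of
them with `w i` input wires, which decide whether the CNF formula with `n` variables and `M`
clauses given by its incidence matrix is satisfiable.  Let `P = ∏ (w i + 1)`.  For every `δ > 0`
there is a constant `c` such that, if `n ^ c * P ≤ M` and `n` is large,

  `2 ^ ((1 - δ) * n) ≤ (number of AND and OR gates + ∑ w i) * P`.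

* Without further gates (`P = 1`): monotone circuits that decide the satisfiability of CNF formulas
  with `n` variables and `n ^ c` clauses have at least `2 ^ ((1 - δ) * n)` gates.  Trying all the
  assignments is a monotone circuit with `2 ^ n * (2 * n * M)` gates or less.
* With `t` NOT gates: `P = 2 ^ t`, and there are at least `2 ^ ((1 - δ) * n - t) - t` gates as long
  as `t ≤ log₂ M - c * log₂ n`.  Circuits with `log₂ (2 * n * M + 1) + 1` NOT gates are as powerful
  as circuits with any number of NOT gates, up to a polynomial.

Proof.  Take the problem to tell whether a graph with `k` parts of `q = n ^ O(1)` vertices each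
contains a clique with one vertex of each part (`k * log₂ q = n`): this is the satisfiability of a
CNF formula with `n` variables and a clause for every pair of vertices from distinct parts.
Razborov's approximation method shows that monotone circuits for this problem have size
`q ^ ((1 - δ) * k)`; the number of parts `k = n / O(log n)` is larger than any power `q ^ ε`
allowed by the usual sunflower lemma, so we use a sunflower lemma proved by the spread method and
count the assignments of vertices to parts only.  For the non-monotone gates, `P` such problems are
put into one formula with the help of `log₂ P` further variables (a disjunction), and a chain of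
`P` restrictions makes one of the disjuncts free while all the non-monotone gates get constant
inputs or monotone ones.
-/

namespace Pool.Agent.Results.MP_c62aed_lc.FewNonMonotoneGates

open Filter Pool.Agent.H559R4 Pool.Agent.H520R2.NM

theorem result (δ : ℝ) (hδ : 0 < δ) : ∃ c : ℕ, ∀ᶠ n : ℕ in atTop,
    ∀ {M N : ℕ} (C : Circuit (Fin M × Fin n × Bool) N) (out : Wire (Fin M × Fin n × Bool) N),
      (∀ φ, out.eval φ (C.vals φ) = true ↔ Sat φ) →
      n ^ c * (C.fanins.map (· + 1)).prod ≤ M →
      (2 : ℝ) ^ ((1 - δ) * n) ≤
        ((C.size + C.fanins.sum : ℕ) : ℝ) * (((C.fanins.map (· + 1)).prod : ℕ) : ℝ) :=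
  main2 δ hδ

end Pool.Agent.Results.MP_c62aed_lc.FewNonMonotoneGates
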