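import Pool.Agent.H624R2.Lin6

/-!
Satisfiability (and model counting) of a CNF formula with `P` projections in time
`O((n+1)^2 (m+1)^3 P)` on a word RAM.
-/

namespace Pool.Agent.Results.MP_c62aed_lc.LinearInProjections

open Pool.Agent.H588R2 Pool.Agent.H624R2.Lin

/-- The formula has at most `2^{(1 - δ) n}` projections. -/
def Few (δ : ℝ) {n m : ℕ} (φ : CNF n m) : Prop :=
  (φ.numProj : ℝ) ≤ 2 ^ ((1 - δ) * n)

theorem few_bound {δ : ℝ} {n m : ℕ} {φ : CNF n m} (h : Few δ φ) :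
    (φ.numProj : ℝ) ≤ (2 - (2 - 2 ^ (1 - δ))) ^ n := by
  refine h.trans (le_of_eq ?_)
  rw [sub_sub_cancel, ← Real.rpow_natCast, ← Real.rpow_mul (by norm_num)]

/-- One program counts the satisfying assignments of every CNF formula `φ` with `n` variables
and `m` clauses in at most `40 (n+1)^2 (m+1)^3 P` steps, where `P` is the number of
projections of `φ`; words of `2 n + ⌊log₂ (m+1)⌋ + 5` or more bits suffice.
In particular, for every `δ > 0` there is `ε > 0` such that it takes at most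
`40 (n+1)^2 (m+1)^3 (2-ε)^n` steps on all formulas with at most `2^{(1-δ) n}` projections. -/
theorem result :
    ∃ A : List Instr,
      (∀ (n m w : ℕ) (φ : CNF n m), 2 * n + Nat.log 2 (m + 1) + 5 ≤ w →
        HaltsWithin w A (inputConfig φ) (40 * (n + 1) ^ 2 * (m + 1) ^ 3 * φ.numProj)
          φ.numSat) ∧
      ∀ δ : ℝ, 0 < δ → ∃ ε : ℝ, 0 < ε ∧
        ∀ (n m w : ℕ) (φ : CNF n m), 2 * n + Nat.log 2 (m + 1) + 5 ≤ w → Few δ φ →
          HaltsWithin w A (inputConfig φ) (40 * (n + 1) ^ 2 * (m + 1) ^ 3 * (2 - ε) ^ n)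
            φ.numSat := by
  refine ⟨mainCode.compile 0, fun n m w φ hw => main φ hw, fun δ hδ => ?_⟩
  refine ⟨2 - 2 ^ (1 - δ), ?_, fun n m w φ hw hf => ?_⟩
  · have h1 : (2 : ℝ) ^ (1 - δ) < 2 ^ (1 : ℝ) :=
      Real.rpow_lt_rpow_of_exponent_lt (by norm_num) (by linarith)
    rw [Real.rpow_one] at h1
    linarith
  · obtain ⟨t, ht, hh⟩ := main φ hw
    refine ⟨t, ht.trans ?_, hh⟩
    have := few_bound hf
    gcongr

end Pool.Agent.Results.MP_c62aed_lc.LinearInProjections
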