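import Mathlib
import Pool.Agent.H538R2.RLFinal

/-!
# A SETH-strength bound for (regular) resolution over parities

For every `ε > 0` and every `c`, for all large `n` there is an unsatisfiable CNF formula `F` over `n`
variables such that every refutation of `F` in resolution over parities (lines are disjunctions of
linear equations over the field with two elements) with `s` lines and depth `d` satisfies
`s * 2 ^ d > (4 - ε) ^ n * |F| ^ c`. So refutations of depth at most `n`, in particular all regular
ones, have more than `(2 - ε) ^ n * |F| ^ c` lines.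
-/

set_option autoImplicit false

namespace Pool.Agent.Results.MP_c62aed_lc.ResParityTradeoff

open Pool.Agent.H538R2.SB

theorem result (ε : ℝ) (hε0 : 0 < ε) (hε4 : ε < 4) (c : ℕ) :
    ∃ n₀ : ℕ, ∀ n : ℕ, n₀ ≤ n → ∃ F : Finset (Clause n), (∀ x : Asg n, ∃ C ∈ F, FalseAt C x) ∧
      ∀ (lines : Finset (Finset (Asg n))) (rk : Finset (Asg n) → ℕ), ResLin F lines rk →
        (4 - ε) ^ n * (cnfSize F : ℝ) ^ c < (lines.card : ℝ) * 2 ^ (rk Finset.univ) :=
  main_RL ε hε0 hε4 c

end Pool.Agent.Results.MP_c62aed_lc.ResParityTradeoff
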